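import Mathlib

set_option autoImplicit false
open Matrix
open scoped MatrixOrder ComplexOrder Kronecker

namespace Pool.Agent.Results.MP_03f9bf_an.Cex

abbrev M (n : ℕ) := Matrix (Fin n) (Fin n) ℂ

/-- singular values in non-increasing order -/
noncomputable def sv {n : ℕ} (X : M n) (i : Fin (Fintype.card (Fin n))) : ℝ :=
  Real.sqrt ((isHermitian_conjTranspose_mul_self X).eigenvalues₀ i)

/-- Ky Fan `k`-norm -/
noncomputable def kf {n : ℕ} (k : ℕ) (X : M n) : ℝ := ∑ i with i.1 < k, sv X i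

/-- partial trace over the first tensor factor -/
noncomputable def tr1 {n : ℕ} (X : Matrix (Fin n × Fin n) (Fin n × Fin n) ℂ) : M n :=
  of fun i j => ∑ a, X (a, i) (a, j)

/-- `S_A` -/
noncomputable def S {n : ℕ} (A : M n) : Matrix (Fin n × Fin n) (Fin n × Fin n) ℂ :=
  A ⊗ₖ (1 : M n) + (1 : M n) ⊗ₖ A

/-- `D_B` -/
noncomputable def D {n : ℕ} (B : M n) : Matrix (Fin n × Fin n) (Fin n × Fin n) ℂ :=
  B ⊗ₖ (1 : M n) - (1 : M n) ⊗ₖ B

/-- `L(A,B)` -/
noncomputable def L {n : ℕ} (A B : M n) : M n := tr1 (S A * D B)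

/-- `R(B)` -/
noncomputable def R {n : ℕ} (B : M n) : M n := tr1 (D B)

lemma tr1_k {n : ℕ} (X Y : M n) : tr1 (X ⊗ₖ Y) = X.trace • Y := by
  ext i j; simp [tr1, trace, Finset.sum_mul]
lemma tr1_add {n : ℕ} (X Y) : tr1 (n := n) (X + Y) = tr1 X + tr1 Y := by
  ext i j; simp [tr1, Finset.sum_add_distrib]
lemma tr1_sub {n : ℕ} (X Y) : tr1 (n := n) (X - Y) = tr1 X - tr1 Y := by
  ext i j; simp [tr1]

lemma L_eq {n : ℕ} (A B : M n) : L A B =
    (A * B).trace • (1 : M n) - A.trace • B + B.trace • A - (n : ℂ) • (A * B) := by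
  simp only [L, S, D, add_mul, mul_sub, ← mul_kronecker_mul, tr1_add, tr1_sub, tr1_k, mul_one,
    one_mul, trace_one, Fintype.card_fin]
  abel

lemma R_eq {n : ℕ} (B : M n) : R B = B.trace • (1 : M n) - (n : ℂ) • B := by
  simp only [R, D, tr1_sub, tr1_k, trace_one, Fintype.card_fin]

lemma sum_sv {n : ℕ} (X P : M n) (hP : P.PosSemidef) (h : Xᴴ * X = P * P) :
    ((∑ i, sv X i : ℝ) : ℂ) = P.trace := by
  have hX := isHermitian_conjTranspose_mul_self X
  have hs : IsSelfAdjoint P := hP.1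
  have e : cfc Real.sqrt (Xᴴ * X) = P := by
    rw [h, ← sq, ← cfc_pow_id (R := ℝ) P 2 hs, ← cfc_comp' Real.sqrt (fun t : ℝ => t ^ 2) P
      Real.continuous_sqrt.continuousOn (by fun_prop) hs]
    refine (cfc_congr fun t ht => ?_).trans (cfc_id' ℝ P hs)
    exact Real.sqrt_sq (spectrum_nonneg_of_nonneg hP.nonneg ht)
  rw [← e, hX.cfc_eq, IsHermitian.cfc, Unitary.conjStarAlgAut_apply, trace_mul_cycle,
    ← Unitary.coe_star, ← Submonoid.coe_mul, Unitary.star_mul_self, OneMemClass.coe_one, one_mul,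
    trace_diagonal]
  push_cast
  exact (Equiv.sum_comp (Fintype.equivOfCardEq (Fintype.card_fin _)).symm
    fun i => ((sv X i : ℝ) : ℂ)).symm

lemma sv_le {n : ℕ} (X : M n) {c : ℝ} (hc : 0 ≤ c) (h : Xᴴ * X ≤ (c ^ 2) • (1 : M n)) (i) :
    sv X i ≤ c := by
  have hX := isHermitian_conjTranspose_mul_self X
  rw [← Algebra.algebraMap_eq_smul_one, le_algebraMap_iff_spectrum_le hX] at h
  have := h _ (hX.eigenvalues_mem_spectrum_real (Fintype.equivOfCardEq (Fintype.card_fin _) i))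
  rw [IsHermitian.eigenvalues, Equiv.symm_apply_apply] at this
  exact Real.sqrt_le_iff.2 ⟨hc, this⟩

abbrev N := Matrix (Fin 16) (Fin 16) ℤ
def blk (x a b c d y : ℤ) : N := of fun i j =>
  if i = 0 ∧ j = 0 then x else if i = 1 ∧ j = 1 then a else if i = 1 ∧ j = 2 then b
  else if i = 2 ∧ j = 1 then c else if i = 2 ∧ j = 2 then d else if i = j then y else 0

noncomputable def φ : N →+* M 16 := (Int.castRingHom ℂ).mapMatrix

lemma φH (X : N) : (φ X)ᴴ = φ Xᵀ := by ext i j; simp [φ]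
lemma φtr (X : N) : (φ X).trace = (X.trace : ℤ) := by simp [φ, trace]
lemma φsm (c : ℤ) (X : N) : (c : ℂ) • φ X = φ (c • X) := by
  rw [map_zsmul, Int.cast_smul_eq_zsmul]

lemma psd (C : N) (d : Fin 16 → ℕ) : (φ (Cᵀ * diagonal (fun i => (d i : ℤ)) * C)).PosSemidef := by
  rw [map_mul, map_mul, ← φH]
  refine PosSemidef.conjTranspose_mul_mul_same ?_ _
  have : φ (diagonal fun i => (d i : ℤ)) = diagonal fun i => (d i : ℂ) := by
    ext i j; by_cases h : i = j <;> simp [φ, h, diagonal]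
  rw [this]
  exact PosSemidef.diagonal fun i => Nat.cast_nonneg _

theorem result : ∃ (n : ℕ) (A B : M n) (k : ℕ), A.IsHermitian ∧ B.IsHermitian ∧ 1 ≤ k ∧ k ≤ n ∧
    2 * kf 1 A * kf k (R B) < kf k (L A B) := by
  have hk : ∀ f : Fin (Fintype.card (Fin 16)) → ℝ, ∑ i with i.1 < 16, f i = ∑ i, f i := fun f =>
    by rw [Finset.filter_true_of_mem fun i _ => by simpa using i.2]
  refine ⟨16, φ (blk 11 (-4) 10 10 4 11), φ (blk 1 (-1) 0 0 0 0), 16, ?_, ?_, by norm_num, le_rfl,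
    ?_⟩
  · rw [IsHermitian, φH]; congr 1; decide +kernel
  · rw [IsHermitian, φH]; congr 1; decide +kernel
  rw [kf, kf, kf, hk, hk]
  have eL : L (φ (blk 11 (-4) 10 10 4 11)) (φ (blk 1 (-1) 0 0 0 0)) =
      φ (blk (-315) 105 0 160 15 15) := by
    rw [L_eq, ← map_mul, φtr, φtr, φtr, ← map_one φ, ← Int.cast_natCast, φsm, φsm, φsm, φsm,
      ← map_sub, ← map_add, ← map_sub]
    congr 1; decide +kernel
  have eR : R (φ (blk 1 (-1) 0 0 0 0)) = φ (blk (-16) 16 0 0 0 0) := by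
    rw [R_eq, φtr, ← map_one φ, ← Int.cast_natCast, φsm, φsm, ← map_sub]
    congr 1; decide +kernel
  have h1 := sum_sv (φ (blk (-315) 105 0 160 15 15)) _
    ((psd (blk 1 1 0 4 3 1) fun i => if i = 0 then 315 else if i = 1 then 175 else
      if i = 2 then 1 else 15)) (by rw [φH, ← map_mul, ← map_mul]; congr 1; decide +kernel)
  have h2 := sum_sv (φ (blk (-16) 16 0 0 0 0)) _ (psd 1 fun i => if i < 2 then 16 else 0)
    (by rw [φH, ← map_mul, ← map_mul]; congr 1; decide +kernel)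
  rw [φtr, show trace _ = (710 : ℤ) by decide +kernel] at h1
  rw [φtr, show trace _ = (32 : ℤ) by decide +kernel] at h2
  have h3 := sv_le (φ (blk 11 (-4) 10 10 4 11)) (c := 11) (by norm_num) (by
    have := psd 1 fun i => if i = 1 ∨ i = 2 then 5 else 0
    refine le_iff.2 ((congrArg PosSemidef ?_).mpr this)
    have e : ((11 : ℝ) ^ 2) • (1 : M 16) = ((121 : ℤ) : ℂ) • φ 1 := by
      rw [map_one]; ext i j; simp; norm_num
    rw [e, φH, ← map_mul, φsm, ← map_sub]; congr 1; decide +kernel)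
  have h4 : ∑ i with i.1 < 1, sv (φ (blk 11 (-4) 10 10 4 11)) i ≤ 11 := by
    rw [Finset.sum_eq_single ⟨0, by simp⟩ (fun i hi h => (h (Fin.ext (by simpa using hi))).elim)
      (by simp)]
    exact h3 _
  have h1' : ∑ i, sv (φ (blk (-315) 105 0 160 15 15)) i = 710 := by exact_mod_cast h1
  have h2' : ∑ i, sv (φ (blk (-16) 16 0 0 0 0)) i = 32 := by exact_mod_cast h2
  rw [eL, eR, h1', h2']
  linarith

end Pool.Agent.Results.MP_03f9bf_an.Cex
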